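import Pool.Agent.Lib.MP_4d4569_co.R9b

set_option autoImplicit false

namespace Pool.Agent.Lib.MP_4d4569_co.Old.Subcritical

/-- Exponential sums with frequencies in convex position: for every exponent `p < 6` the mean of
the `p`-th power over large squares is bounded with no dependence on the number of points. -/
theorem result : ∃ C : ℝ, ∀ A : Finset (ℝ × ℝ),
    (∀ a ∈ A, a ∉ convexHull ℝ ((A : Set (ℝ × ℝ)) \ {a})) → ∃ R₀ : ℝ, ∀ R : ℝ, R₀ ≤ R →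
    ∀ (c : ℝ × ℝ → ℂ) (p : ℝ), 0 < p → p < 6 →
      ∫ x in Set.Icc 0 R ×ˢ Set.Icc 0 R,
        ‖∑ a ∈ A, c a * Complex.exp (2 * Real.pi * Complex.I * (a.1 * x.1 + a.2 * x.2 : ℝ))‖ ^ p
        ≤ C / (6 - p) * (∑ a ∈ A, ‖c a‖ ^ 2) ^ (p / 2) * R ^ 2 :=
  E3R9.main.imp fun _ h A hA => h A (E3R8.sup_of_convex A hA)

end Pool.Agent.Lib.MP_4d4569_co.Old.Subcritical
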